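import Pool.Agent.H20.ERN.Pr

/-!
# MP_816b90_co, negation: search for the prism with rungs of length 1, 1, 3 with bit masks
-/

set_option autoImplicit false

namespace Pool.Agent.H20.ERN

open Pool.Agent.H48.ER

/-- all set bits of `m` satisfy `g` -/
def allb : ℕ → ℕ → (ℕ → Bool) → Bool
  | 0, m, _ => m == 0
  | _ + 1, 0, _ => true
  | f + 1, k + 1, g => g (Nat.log2 (k + 1)) && allb f ((k + 1) ^^^ (1 <<< Nat.log2 (k + 1))) g

theorem allb_sound (g : ℕ → Bool) : ∀ (f m : ℕ), allb f m g = true → ∀ v, m.testBit v = true →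
    g v = true := by
  intro f
  induction f with
  | zero =>
    intro m h v hv
    have h' : m = 0 := by simpa [allb] using h
    subst h'
    simp at hv
  | succ f ih =>
    intro m h v hv
    cases m with
    | zero => simp at hv
    | succ k =>
      simp only [allb, Bool.and_eq_true] at h
      by_cases hb : v = Nat.log2 (k + 1)
      · rw [hb]; exact h.1
      · refine ih _ h.2 v ?_
        rw [Nat.testBit_xor, hv, Nat.one_shiftLeft, Nat.testBit_two_pow]
        have : decide (Nat.log2 (k + 1) = v) = false := by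
          simp only [decide_eq_false_iff_not]
          exact fun e => hb e.symm
        rw [this]; rfl

/-- the search -/
def ck113 (full : ℕ) (N : ℕ → ℕ) (F : ℕ) : Bool :=
  allb F full fun a0 => allb F (N a0) fun b0 =>
  allb F (N a0 &&& (full ^^^ N b0)) fun a1 =>
  allb F (N b0 &&& (N a1 &&& (full ^^^ N a0))) fun b1 =>
  allb F (N a0 &&& (N a1 &&& (full ^^^ (N b0 ||| N b1)))) fun a2 =>
  allb F (N b0 &&& (N b1 &&& (full ^^^ (N a0 ||| (N a1 ||| N a2))))) fun b2 =>
  allb F (N a2 &&& (full ^^^ (N a0 ||| (N a1 ||| (N b0 ||| (N b1 ||| N b2)))))) fun c =>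
  allb F (N c &&& (N b2 &&& (full ^^^ (N a0 ||| (N a1 ||| (N a2 ||| (N b0 ||| N b1))))))) fun _ =>
  false

theorem tb_false {m v : ℕ} (h : ¬ m.testBit v = true) : m.testBit v = false := by
  simpa using h

theorem ck113_sound {n : ℕ} (G : SimpleGraph (Fin n)) (N : ℕ → ℕ) (F : ℕ)
    (hA : ∀ u v : Fin n, G.Adj u v ↔ (N u.1).testBit v.1 = true)
    (h : ck113 (2 ^ n - 1) N F = true) :
    ∀ a0 a1 a2 b0 b1 b2 c d, ¬ P113 G a0 a1 a2 b0 b1 b2 c d := by
  intro a0 a1 a2 b0 b1 b2 c d P
  have full : ∀ v : Fin n, (2 ^ n - 1).testBit v.1 = true := by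
    intro v
    rw [Nat.testBit_two_pow_sub_one]
    simp [v.2]
  have yes : ∀ {u v : Fin n}, G.Adj u v → (N u.1).testBit v.1 = true := fun h => (hA _ _).1 h
  have no : ∀ {u v : Fin n}, ¬ G.Adj u v → (N u.1).testBit v.1 = false := fun h =>
    tb_false fun e => h ((hA _ _).2 e)
  have sy : ∀ {u v : Fin n}, ¬ G.Adj u v → ¬ G.Adj v u := fun h e => h e.symm
  have h1 := allb_sound _ _ _ h a0.1 (full a0)
  have h2 := allb_sound _ _ _ h1 b0.1 (yes P.r0)
  have h3 := allb_sound _ _ _ h2 a1.1 (by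
    rw [Nat.testBit_land, Nat.testBit_xor, full, yes P.a01, no (sy P.n3)]; rfl)
  have h4 := allb_sound _ _ _ h3 b1.1 (by
    rw [Nat.testBit_land, Nat.testBit_land, Nat.testBit_xor, full, yes P.b01, yes P.r1,
      no P.n1]; rfl)
  have h5 := allb_sound _ _ _ h4 a2.1 (by
    rw [Nat.testBit_land, Nat.testBit_land, Nat.testBit_xor, Nat.testBit_lor, full, yes P.a02,
      yes P.a12, no (sy P.n5), no (sy P.n6)]; rfl)
  have h6 := allb_sound _ _ _ h5 b2.1 (by
    rw [Nat.testBit_land, Nat.testBit_land, Nat.testBit_xor, Nat.testBit_lor, Nat.testBit_lor,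
      full, yes P.b02, yes P.b12, no P.n2, no P.n4, no P.n7]; rfl)
  have h7 := allb_sound _ _ _ h6 c.1 (by
    rw [Nat.testBit_land, Nat.testBit_xor, Nat.testBit_lor, Nat.testBit_lor, Nat.testBit_lor,
      Nat.testBit_lor, full, yes P.r2, no (sy P.c1), no (sy P.c2), no (sy P.c3), no (sy P.c4),
      no (sy P.c5)]; rfl)
  have h8 := allb_sound _ _ _ h7 d.1 (by
    rw [Nat.testBit_land, Nat.testBit_land, Nat.testBit_xor, Nat.testBit_lor, Nat.testBit_lor,
      Nat.testBit_lor, Nat.testBit_lor, full, yes P.r3, yes P.r4.symm, no (sy P.d1),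
      no (sy P.d2), no (sy P.d5), no (sy P.d3), no (sy P.d4)]; rfl)
  exact Bool.noConfusion h8

end Pool.Agent.H20.ERN
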