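import Pool.Agent.H20.ERN.Ck

/-!
# MP_816b90_co, negation: depth first search for chordless cycles with bit masks
-/

set_option autoImplicit false

namespace Pool.Agent.H20.ERN

/-- search through the chordless paths which start with `c` and a neighbour; `v` is the last
vertex, `A` the set of vertices which may follow, `d` the number of steps; a closing vertex is
allowed only if `ok d` -/
def dfs (N : ℕ → ℕ) (full : ℕ) (ok : ℕ → Bool) (c F : ℕ) : ℕ → ℕ → ℕ → ℕ → Bool
  | 0, _, _, _ => false
  | f + 1, v, A, d => ((A &&& (N v &&& N c)) == 0 || ok d) &&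
      allb F (A &&& (N v &&& (full ^^^ N c))) fun w =>
        dfs N full ok c F f w (A &&& (full ^^^ N v)) (d + 1)

/-- the vertices after `c` -/
def above (full c : ℕ) : ℕ := full ^^^ (2 ^ (c + 1) - 1)

/-- the complete search -/
def chk (N : ℕ → ℕ) (full : ℕ) (ok : ℕ → Bool) (F D : ℕ) : Bool :=
  allb F full fun c => allb F (N c &&& above full c) fun u =>
    dfs N full ok c F D u (above full c &&& (full ^^^ 2 ^ u)) 0

theorem CycS.rot {V : Type} {G : SimpleGraph V} {k : ℕ} {p : ℕ → V} (h : CycS G k p) {s : ℕ}
    (hs : s < k) : CycS G k (fun i => if s + i < k then p (s + i) else p (s + i - k)) := by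
  constructor
  · intro i j hi hj e
    by_cases h1 : s + i < k <;> by_cases h2 : s + j < k
    · simp only [h1, h2, if_true] at e
      have := h.1 _ _ (by omega) (by omega) e
      omega
    · simp only [h1, h2, if_true, if_false] at e
      have := h.1 _ _ (by omega) (by omega) e
      omega
    · simp only [h1, h2, if_true, if_false] at e
      have := h.1 _ _ (by omega) (by omega) e
      omega
    · simp only [h1, h2, if_false] at e
      have := h.1 _ _ (by omega) (by omega) e
      omega
  · intro i j hi hj
    by_cases h1 : s + i < k <;> by_cases h2 : s + j < k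
    · simp only [h1, h2, if_true]
      rw [h.2 _ _ (by omega) (by omega)]
      omega
    · simp only [h1, h2, if_true, if_false]
      rw [h.2 _ _ (by omega) (by omega)]
      omega
    · simp only [h1, h2, if_true, if_false]
      rw [h.2 _ _ (by omega) (by omega)]
      omega
    · simp only [h1, h2, if_false]
      rw [h.2 _ _ (by omega) (by omega)]
      omega

section

variable {n : ℕ} {G : SimpleGraph (Fin n)} {N : ℕ → ℕ} {ok : ℕ → Bool} {F : ℕ}

theorem dfs_sound (hA : ∀ u v : Fin n, G.Adj u v ↔ (N u.1).testBit v.1 = true) {k : ℕ}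
    {p : ℕ → Fin n} (hp : CycS G k p) (hk : 4 ≤ k) : ∀ (r i f A : ℕ), i + r = k - 2 → 1 ≤ i →
    dfs N (2 ^ n - 1) ok (p 0).1 F f (p i).1 A (i - 1) = true →
    (∀ j, i < j → j < k → A.testBit (p j).1 = true) → ok (k - 3) = true := by
  have full : ∀ v : Fin n, (2 ^ n - 1).testBit v.1 = true := by
    intro v
    rw [Nat.testBit_two_pow_sub_one]
    simp [v.2]
  have yes : ∀ {u v : Fin n}, G.Adj u v → (N u.1).testBit v.1 = true := fun h => (hA _ _).1 h
  have no : ∀ {u v : Fin n}, ¬ G.Adj u v → (N u.1).testBit v.1 = false := fun h =>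
    tb_false fun e => h ((hA _ _).2 e)
  intro r
  induction r with
  | zero =>
    intro i f A hi h1 h hAll
    cases f with
    | zero => exact Bool.noConfusion h
    | succ f =>
      simp only [dfs, Bool.and_eq_true, Bool.or_eq_true, beq_iff_eq] at h
      rcases h.1 with h0 | h0
      · exfalso
        have hb : (A &&& (N (p i).1 &&& N (p 0).1)).testBit (p (k - 1)).1 = true := by
          rw [Nat.testBit_land, Nat.testBit_land, hAll _ (by omega) (by omega),
            yes ((hp.2 i (k - 1) (by omega) (by omega)).2 (by omega)),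
            yes ((hp.2 0 (k - 1) (by omega) (by omega)).2 (by omega))]
          rfl
        rw [h0] at hb
        simp at hb
      · have : i - 1 = k - 3 := by omega
        rw [← this]; exact h0
  | succ r ih =>
    intro i f A hi h1 h hAll
    cases f with
    | zero => exact Bool.noConfusion h
    | succ f =>
      simp only [dfs, Bool.and_eq_true] at h
      have h2 := allb_sound _ _ _ h.2 (p (i + 1)).1 (by
        rw [Nat.testBit_land, Nat.testBit_land, Nat.testBit_xor, full,
          hAll _ (by omega) (by omega),
          yes ((hp.2 i (i + 1) (by omega) (by omega)).2 (by omega)),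
          no (fun e => by
            have := (hp.2 0 (i + 1) (by omega) (by omega)).1 e
            omega)]
        rfl)
      refine ih (i + 1) f _ (by omega) (by omega) (by
        rw [show i + 1 - 1 = i - 1 + 1 by omega]; exact h2) ?_
      intro j hj hjk
      rw [Nat.testBit_land, Nat.testBit_xor, full, hAll _ (by omega) hjk, no (fun e => by
        have := (hp.2 i j (by omega) hjk).1 e
        omega)]
      rfl

theorem chk_sound (hA : ∀ u v : Fin n, G.Adj u v ↔ (N u.1).testBit v.1 = true) {D : ℕ}
    (h : chk N (2 ^ n - 1) ok F D = true) (k : ℕ) (p : ℕ → Fin n) (hk : 4 ≤ k)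
    (hp : CycS G k p) : ok (k - 3) = true := by
  have full : ∀ v : Fin n, (2 ^ n - 1).testBit v.1 = true := by
    intro v
    rw [Nat.testBit_two_pow_sub_one]
    simp [v.2]
  -- the smallest vertex first
  have hex : ∃ x, ∃ i, i < k ∧ (p i).1 = x := ⟨_, 0, by omega, rfl⟩
  classical
  obtain ⟨s, hs, hsx⟩ := Nat.find_spec hex
  have hmin : ∀ i, i < k → (p s).1 ≤ (p i).1 := by
    intro i hi
    rw [hsx]
    exact Nat.find_min' hex ⟨i, hi, rfl⟩
  have hq := hp.rot hs
  have hq0 : ∀ i, 0 < i → i < k →
      (p s).1 < (if s + i < k then p (s + i) else p (s + i - k)).1 := by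
    intro i hi hik
    by_cases h1 : s + i < k
    · simp only [h1, if_true]
      refine lt_of_le_of_ne (hmin _ h1) (fun e => ?_)
      have := hp.1 _ _ hs h1 (Fin.ext e)
      omega
    · simp only [h1, if_false]
      refine lt_of_le_of_ne (hmin _ (by omega)) (fun e => ?_)
      have := hp.1 _ _ hs (by omega : s + i - k < k) (Fin.ext e)
      omega
  generalize hqd : (fun i => if s + i < k then p (s + i) else p (s + i - k)) = q at hq
  have hqi : ∀ i, q i = if s + i < k then p (s + i) else p (s + i - k) := fun i => by rw [← hqd]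
  have hq00 : q 0 = p s := by rw [hqi]; simp [hs]
  have hgt : ∀ i, 0 < i → i < k → (q 0).1 < (q i).1 := by
    intro i hi hik
    rw [hq00, hqi]
    exact hq0 i hi hik
  have hab : ∀ i, 0 < i → i < k → (above (2 ^ n - 1) (q 0).1).testBit (q i).1 = true := by
    intro i hi hik
    have := hgt i hi hik
    rw [above, Nat.testBit_xor, full, Nat.testBit_two_pow_sub_one]
    have h' : decide ((q i).1 < (q 0).1 + 1) = false := by
      simp only [decide_eq_false_iff_not]; omega
    rw [h']; rfl
  have h1 := allb_sound _ _ _ h (q 0).1 (full _)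
  have h2 := allb_sound _ _ _ h1 (q 1).1 (by
    rw [Nat.testBit_land, hab 1 (by omega) (by omega),
      (hA _ _).1 ((hq.2 0 1 (by omega) (by omega)).2 (by omega))]
    rfl)
  refine dfs_sound (ok := ok) (F := F) hA hq hk (k - 3) 1 _ _ (by omega) le_rfl h2 ?_
  intro j hj hjk
  rw [Nat.testBit_land, hab j (by omega) hjk, Nat.testBit_xor, full, Nat.testBit_two_pow]
  have h' : decide ((q 1).1 = (q j).1) = false := by
    simp only [decide_eq_false_iff_not]
    intro e
    have := hq.1 _ _ (by omega) hjk (Fin.ext e)
    omega
  rw [h']; rfl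

end

end Pool.Agent.H20.ERN
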