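import Pool.Agent.H14.ER3.PA
import Pool.Agent.H29.ERO.PRC
import Pool.Agent.H36.ER.WLK

/-!
# MP_816b90_co, negation: odd prisms in a graph all of whose holes have length four or six
-/

set_option autoImplicit false

namespace Pool.Agent.H20.ERN

open Pool.Agent.H48.ER Pool.Agent.H52.ER2 Pool.Agent.H66.ER2 Pool.Agent.H20.ER3

/-- `p 0, .., p (k - 1)` is a chordless cycle -/
def CycS {V : Type} (G : SimpleGraph V) (k : ℕ) (p : ℕ → V) : Prop :=
  (∀ i j, i < k → j < k → p i = p j → i = j) ∧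
  ∀ i j, i < k → j < k → (G.Adj (p i) (p j) ↔
    i + 1 = j ∨ j + 1 = i ∨ (i = 0 ∧ j + 1 = k) ∨ (j = 0 ∧ i + 1 = k))

/-- the chordless cycle through two rungs -/
theorem cyc_rungs {V : Type} {G : SimpleGraph V} {n : Fin 3 → ℕ} {g : Fin 3 → ℕ → V}
    (h : PI G n g) (i j : Fin 3) (hij : i ≠ j) :
    CycS G (n i + n j + 2) (fun x => if x ≤ n i then g i x else g j (n i + 1 + n j - x)) := by
  have hpi := h.pos i
  have hpj := h.pos j
  constructor
  · intro x y hx hy e
    by_cases h1 : x ≤ n i <;> by_cases h2 : y ≤ n i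
    · simp only [h1, h2, if_true] at e
      exact (h.inj _ _ _ _ h1 h2 e).2
    · simp only [h1, h2, if_true, if_false] at e
      exact absurd (h.inj i j _ _ h1 (by omega) e).1 hij
    · simp only [h1, h2, if_true, if_false] at e
      exact absurd (h.inj j i _ _ (by omega) h2 e).1 hij.symm
    · simp only [h1, h2, if_false] at e
      have := (h.inj j j _ _ (by omega) (by omega) e).2
      omega
  · intro x y hx hy
    by_cases h1 : x ≤ n i <;> by_cases h2 : y ≤ n i
    · simp only [h1, h2, if_true]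
      rw [h.adj _ _ _ _ h1 h2]
      constructor
      · rintro (⟨_, h⟩ | ⟨h, _⟩)
        · omega
        · exact absurd rfl h
      · intro h
        left; exact ⟨rfl, by omega⟩
    · simp only [h1, h2, if_true, if_false]
      rw [h.adj i j _ _ h1 (by omega)]
      constructor
      · rintro (⟨h, _⟩ | ⟨_, h⟩)
        · exact absurd h hij
        · omega
      · intro h
        right; exact ⟨hij, by omega⟩
    · simp only [h1, h2, if_true, if_false]
      rw [h.adj j i _ _ (by omega) h2]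
      constructor
      · rintro (⟨h, _⟩ | ⟨_, h⟩)
        · exact absurd h hij.symm
        · omega
      · intro h
        right; exact ⟨hij.symm, by omega⟩
    · simp only [h1, h2, if_false]
      rw [h.adj j j _ _ (by omega) (by omega)]
      constructor
      · rintro (⟨_, h⟩ | ⟨h, _⟩)
        · omega
        · exact absurd rfl h
      · intro h
        left; exact ⟨rfl, by omega⟩

/-- the prism with rungs of length 1, 1, 3 -/
structure P113 {V : Type} (G : SimpleGraph V) (a0 a1 a2 b0 b1 b2 c d : V) : Prop where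
  a01 : G.Adj a0 a1
  a02 : G.Adj a0 a2
  a12 : G.Adj a1 a2
  b01 : G.Adj b0 b1
  b02 : G.Adj b0 b2
  b12 : G.Adj b1 b2
  r0 : G.Adj a0 b0
  r1 : G.Adj a1 b1
  r2 : G.Adj a2 c
  r3 : G.Adj c d
  r4 : G.Adj d b2
  n1 : ¬ G.Adj a0 b1
  n2 : ¬ G.Adj a0 b2
  n3 : ¬ G.Adj a1 b0
  n4 : ¬ G.Adj a1 b2
  n5 : ¬ G.Adj a2 b0
  n6 : ¬ G.Adj a2 b1
  n7 : ¬ G.Adj a2 b2
  c1 : ¬ G.Adj c a0
  c2 : ¬ G.Adj c a1
  c3 : ¬ G.Adj c b0
  c4 : ¬ G.Adj c b1
  c5 : ¬ G.Adj c b2
  d1 : ¬ G.Adj d a0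
  d2 : ¬ G.Adj d a1
  d3 : ¬ G.Adj d b0
  d4 : ¬ G.Adj d b1
  d5 : ¬ G.Adj d a2

theorem p113_of {V : Type} {G : SimpleGraph V} {n : Fin 3 → ℕ} {g : Fin 3 → ℕ → V}
    (h : PI G n g) (i j m : Fin 3) (hij : i ≠ j) (him : i ≠ m) (hjm : j ≠ m) (hi : n i = 1)
    (hj : n j = 1) (hm : n m = 3) :
    P113 G (g i 0) (g j 0) (g m 0) (g i 1) (g j 1) (g m 3) (g m 1) (g m 2) := by
  have A := h.adj
  constructor
  all_goals
    rw [A _ _ _ _ (by omega) (by omega)]
    simp [hij, him, hjm, hij.symm, him.symm, hjm.symm, hi, hj, hm]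

/-- the prism with rungs of length 1, 1, 1 is the complement of a chordless cycle -/
theorem p111_of {V : Type} {G : SimpleGraph V} {n : Fin 3 → ℕ} {g : Fin 3 → ℕ → V}
    (h : PI G n g) (h1 : ∀ i, n i = 1) : CycS Gᶜ 6 (fun x => match x with
      | 0 => g 0 0 | 1 => g 1 1 | 2 => g 2 0 | 3 => g 0 1 | 4 => g 1 0 | _ => g 2 1) := by
  have A := h.adj
  have I := h.inj
  have hne : ∀ i j k l, k ≤ 1 → l ≤ 1 → g i k = g j l → i = j ∧ k = l := fun i j k l hk hl e =>
    I i j k l (by rw [h1]; exact hk) (by rw [h1]; exact hl) e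
  have had : ∀ i j k l, k ≤ 1 → l ≤ 1 → (G.Adj (g i k) (g j l) ↔ (i = j ∧ (k + 1 = l ∨ l + 1 = k)) ∨
      (i ≠ j ∧ ((k = 0 ∧ l = 0) ∨ (k = 1 ∧ l = 1)))) := fun i j k l hk hl => by
    have := A i j k l (by rw [h1]; exact hk) (by rw [h1]; exact hl)
    rwa [h1, h1] at this
  constructor
  · intro i j hi hj e
    interval_cases i <;> interval_cases j <;> simp only at e <;>
      first
        | rfl
        | (exfalso; have := hne _ _ _ _ (by omega) (by omega) e; revert this; decide)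
  · intro i j hi hj
    interval_cases i <;> interval_cases j <;> simp only [SimpleGraph.compl_adj] <;>
      first
        | (constructor
           · rintro ⟨h, _⟩; exact absurd rfl h
           · intro h; omega)
        | (rw [had _ _ _ _ (by omega) (by omega)]
           constructor
           · rintro ⟨_, h⟩; first | decide | (exfalso; apply h; decide)
           · intro h
             first
               | (exfalso; omega)
               | (refine ⟨fun e => ?_, by decide⟩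
                  have := hne _ _ _ _ (by omega) (by omega) e
                  revert this; decide))

theorem nop_of {V : Type} (G : SimpleGraph V) (hH : ∀ k p, 5 ≤ k → CycS G k p → k = 6)
    (hC : ∀ p, ¬ CycS Gᶜ 6 p) (h113 : ∀ a0 a1 a2 b0 b1 b2 c d, ¬ P113 G a0 a1 a2 b0 b1 b2 c d) :
    NOP G := by
  intro a b n P hP ho
  obtain ⟨g, hg, _, _, _⟩ := Pool.Agent.H14.ER3.pf_PA V G a b n P hP
  have hpos := hg.pos
  have key : ∀ i j, i ≠ j → n i + n j = 2 ∨ n i + n j = 4 := by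
    intro i j hij
    have hc := cyc_rungs hg i j hij
    obtain ⟨x, hx⟩ := ho i
    obtain ⟨y, hy⟩ := ho j
    by_cases h5 : 5 ≤ n i + n j + 2
    · have := hH _ _ h5 hc
      omega
    · omega
  have k01 := key 0 1 (by decide)
  have k02 := key 0 2 (by decide)
  have k12 := key 1 2 (by decide)
  obtain ⟨x, hx⟩ := ho 0
  obtain ⟨y, hy⟩ := ho 1
  obtain ⟨z, hz⟩ := ho 2
  have cases4 : (n 0 = 1 ∧ n 1 = 1 ∧ n 2 = 1) ∨ (n 0 = 1 ∧ n 1 = 1 ∧ n 2 = 3) ∨
      (n 0 = 1 ∧ n 1 = 3 ∧ n 2 = 1) ∨ (n 0 = 3 ∧ n 1 = 1 ∧ n 2 = 1) := by omega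
  rcases cases4 with ⟨e0, e1, e2⟩ | ⟨e0, e1, e2⟩ | ⟨e0, e1, e2⟩ | ⟨e0, e1, e2⟩
  · exact hC _ (p111_of hg (by
      intro i
      fin_cases i
      · exact e0
      · exact e1
      · exact e2))
  · exact h113 _ _ _ _ _ _ _ _ (p113_of hg 0 1 2 (by decide) (by decide) (by decide) e0 e1 e2)
  · exact h113 _ _ _ _ _ _ _ _ (p113_of hg 0 2 1 (by decide) (by decide) (by decide) e0 e2 e1)
  · exact h113 _ _ _ _ _ _ _ _ (p113_of hg 1 2 0 (by decide) (by decide) (by decide) e1 e2 e0)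

theorem noOddPrism_of {m : ℕ} (G : SimpleGraph (Fin m))
    (hH : ∀ k p, 5 ≤ k → CycS G k p → k = 6)
    (hC : ∀ p, ¬ CycS Gᶜ 6 p) (h113 : ∀ a0 a1 a2 b0 b1 b2 c d, ¬ P113 G a0 a1 a2 b0 b1 b2 c d) :
    NoOddPrism G :=
  Pool.Agent.H29.ERO.pf_PRC Pool.Agent.H36.ER.pf_WLK m G (nop_of G hH hC h113)

end Pool.Agent.H20.ERN
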