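import Pool.Agent.H20.ERN.Ck
import Pool.Agent.H50.EC.Targets

/-!
# MP_816b90_co, negation: no odd prism in the graph of helper50
-/

set_option autoImplicit false

namespace Pool.Agent.H20.ERN

open Pool.Agent.H50.EC

set_option maxRecDepth 100000 in
theorem ck_G : ck113 (2 ^ 32 - 1) nb 33 = true := by decide +kernel

theorem pf_T_PR (hC : T_CYC) (hA : T_ACYC) : T_PR := by
  refine noOddPrism_of G ?_ ?_ (ck113_sound G nb 33 (fun u v => Iff.rfl) ck_G)
  · intro k p hk hp
    have := hC k p (by omega) hp.1 (by
      intro i j hij hj
      rw [hp.2 i j (by omega) hj]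
      omega)
    omega
  · intro p hp
    have := hA 6 p (by omega) hp.1 (by
      intro i j hij hj
      have h1 := hp.2 i j (by omega) hj
      have hne : p i ≠ p j := fun e => by
        have := hp.1 i j (by omega) hj e
        omega
      rw [SimpleGraph.compl_adj] at h1
      constructor
      · intro h
        have := h1.1 ⟨hne, h⟩
        omega
      · intro h
        exact (h1.2 (by omega)).2)
    omega

end Pool.Agent.H20.ERN
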