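import Pool.Agent.H20.ERN.Dfs
import Pool.Agent.H50.EC.Targets

/-!
# MP_816b90_co, negation: the chordless cycles of the graph of helper50 and of its complement
-/

set_option autoImplicit false

namespace Pool.Agent.H20.ERN

open Pool.Agent.H50.EC

set_option maxRecDepth 100000 in
theorem chk_G : chk nb (2 ^ 32 - 1) (fun d => d == 0 || (d == 1 || d == 3)) 33 12 = true := by
  decide +kernel

set_option maxRecDepth 100000 in
theorem chk_cG : chk cnb (2 ^ 32 - 1) (fun d => d == 0 || d == 1) 33 12 = true := by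
  decide +kernel

theorem cyc_of {n : ℕ} {G : SimpleGraph (Fin n)} {k : ℕ} (hk : 4 ≤ k) {v : ℕ → Fin n}
    (hi : ∀ i j : ℕ, i < k → j < k → v i = v j → i = j)
    (ha : ∀ i j : ℕ, i < j → j < k → (G.Adj (v i) (v j) ↔ (j = i + 1 ∨ (i = 0 ∧ j = k - 1)))) :
    CycS G k v := by
  refine ⟨hi, ?_⟩
  intro i j hik hjk
  rcases Nat.lt_trichotomy i j with h | h | h
  · rw [ha i j h hjk]
    omega
  · subst h
    constructor
    · intro h; exact absurd h (G.loopless.irrefl _)
    · intro h; exfalso; omega
  · rw [G.adj_comm, ha j i h hik]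
    omega

theorem pf_T_CYC : T_CYC := by
  intro k v hk hi ha
  have := chk_sound (G := G) (fun u v => Iff.rfl) chk_G k v hk (cyc_of hk hi ha)
  simp only [Bool.or_eq_true, beq_iff_eq] at this
  omega

theorem pf_T_ACYC : T_ACYC := by
  intro k v hk hi ha
  have hA : ∀ u v : Fin 32, (Gᶜ).Adj u v ↔ (cnb u.1).testBit v.1 = true := by
    intro u v
    rw [SimpleGraph.compl_adj]
    have := CA_iff u v
    rw [CA] at this
    rw [this, G_adj]
    cases hb : A u.1 v.1 <;> simp
  have := chk_sound (G := Gᶜ) hA chk_cG k v hk (cyc_of hk hi (by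
    intro i j hij hj
    rw [SimpleGraph.compl_adj, ← ha i j hij hj]
    constructor
    · exact fun h => h.2
    · intro h
      refine ⟨fun e => ?_, h⟩
      have := hi i j (by omega) hj e
      omega))
  simp only [Bool.or_eq_true, beq_iff_eq] at this
  omega

end Pool.Agent.H20.ERN
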